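import Pool.Agent.DPL.StmtsB

/-!
Squad DPL, row CNT: counting the members of a star by `|R \ F|`.
-/

set_option autoImplicit false

namespace Pool.Agent.DPL.H88

open Finset Pool.Agent.DPS

theorem cnt : CNTStmt := by
  intro n k T R u hTk hkn hu
  classical
  have hc : (R ∪ T)ᶜ.card = n - T.card - (R \ T).card := by
    rw [Finset.card_compl, Fintype.card_fin]
    have h1 : (R ∪ T).card = (R \ T).card + T.card := (Finset.card_sdiff_add_card R T).symm
    omega
  have hN : n - T.card - (k - T.card) - u = n - k - u := by omega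
  unfold pc
  rw [hN, ← hc, ← Finset.card_powersetCard, ← Finset.card_powersetCard, ← Finset.card_product]
  refine Finset.card_bij (fun F _ => (R \ F.1, (F.1 ∪ R)ᶜ)) ?_ ?_ ?_
  · intro F hF
    have hF' := (Finset.mem_filter.mp hF).2
    obtain ⟨hTF, hRF⟩ := hF'
    rw [Finset.mem_product, Finset.mem_powersetCard, Finset.mem_powersetCard]
    refine ⟨⟨?_, hRF⟩, ?_, ?_⟩
    · intro x hx
      have hx' := Finset.mem_sdiff.mp hx
      exact Finset.mem_sdiff.mpr ⟨hx'.1, fun h => hx'.2 (hTF h)⟩
    · apply Finset.compl_subset_compl.mpr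
      intro x hx
      rcases Finset.mem_union.mp hx with h | h
      · exact Finset.mem_union_right _ h
      · exact Finset.mem_union_left _ (hTF h)
    · show ((F.1 ∪ R)ᶜ).card = n - k - u
      rw [Finset.card_compl, Fintype.card_fin]
      have h1 : (R ∪ F.1).card = (R \ F.1).card + F.1.card :=
        (Finset.card_sdiff_add_card R F.1).symm
      rw [Finset.union_comm F.1 R, h1, hRF, F.2]
      omega
  · intro F hF G hG hFG
    have h1 : R \ F.1 = R \ G.1 := congrArg Prod.fst hFG
    have h2 : (F.1 ∪ R)ᶜ = (G.1 ∪ R)ᶜ := congrArg Prod.snd hFG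
    apply Subtype.ext
    ext x
    have h3 := Finset.ext_iff.mp h1 x
    have h4 := Finset.ext_iff.mp h2 x
    simp only [Finset.mem_sdiff, Finset.mem_compl, Finset.mem_union] at h3 h4
    tauto
  · rintro ⟨X, Z⟩ hXZ
    rw [Finset.mem_product, Finset.mem_powersetCard, Finset.mem_powersetCard] at hXZ
    obtain ⟨⟨hX, hXc⟩, hZ, hZc⟩ := hXZ
    have hX' : ∀ x ∈ X, x ∈ R ∧ x ∉ T := fun x hx => Finset.mem_sdiff.mp (hX hx)
    have hZ' : ∀ x ∈ Z, x ∉ R ∧ x ∉ T := fun x hx => by
      have h1 := Finset.mem_compl.mp (hZ hx)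
      exact ⟨fun h => h1 (Finset.mem_union_left _ h), fun h => h1 (Finset.mem_union_right _ h)⟩
    have hdis : Disjoint X Z := by
      rw [Finset.disjoint_left]
      intro x hx hz
      exact (hZ' x hz).1 (hX' x hx).1
    have hcard : (X ∪ Z)ᶜ.card = k := by
      have hXc' : X.card = u := hXc
      have hZc' : Z.card = n - k - u := hZc
      rw [Finset.card_compl, Fintype.card_fin, Finset.card_union_of_disjoint hdis, hXc', hZc']
      omega
    refine ⟨⟨(X ∪ Z)ᶜ, hcard⟩, ?_, ?_⟩
    · rw [Finset.mem_filter]
      refine ⟨Finset.mem_univ _, ?_, ?_⟩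
      · intro x hx
        rw [Finset.mem_compl, Finset.mem_union]
        rintro (h | h)
        · exact (hX' x h).2 hx
        · exact (hZ' x h).2 hx
      · have h1 : R \ (X ∪ Z)ᶜ = X := by
          ext x
          simp only [Finset.mem_sdiff, Finset.mem_compl, Finset.mem_union]
          have := hX' x
          have := hZ' x
          tauto
        show (R \ (X ∪ Z)ᶜ).card = u
        rw [h1]
        exact hXc
    · apply Prod.ext
      · show R \ (X ∪ Z)ᶜ = X
        ext x
        simp only [Finset.mem_sdiff, Finset.mem_compl, Finset.mem_union]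
        have := hX' x
        have := hZ' x
        tauto
      · show ((X ∪ Z)ᶜ ∪ R)ᶜ = Z
        ext x
        simp only [Finset.mem_compl, Finset.mem_union]
        have := hX' x
        have := hZ' x
        tauto

end Pool.Agent.DPL.H88
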