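import Pool.Agent.DPL.StmtsA
import Pool.Agent.Helper94_DPS.DDC
import Pool.Agent.Helper33_DPS.Gen

/-!
Squad DPL, row FRM: comparison of the forms.
-/

set_option autoImplicit false

namespace Pool.Agent.DPL.H88

open Finset Polynomial Pool.Agent.DPS

theorem ip_sum' {n k : ℕ} {ι : Type} (s : Finset ι) (f : KS n k → ℝ) (g : ι → (KS n k → ℝ)) :
    ip f (∑ i ∈ s, g i) = ∑ i ∈ s, ip f (g i) := by
  unfold ip
  rw [Finset.sum_comm]
  refine Finset.sum_congr rfl fun F _ => ?_
  rw [Finset.sum_apply, Finset.mul_sum]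

theorem ip_self_nonneg {n k : ℕ} (f : KS n k → ℝ) : 0 ≤ ip f f := by
  unfold ip
  exact Finset.sum_nonneg fun F _ => mul_self_nonneg _

theorem frm (ide : IDEStmt) (dge : DGEStmt) (wdg : WDGStmt) (ply : PLYStmt) : FRMStmt := by
  intro n k r hn hrk L f g hfg
  obtain ⟨b, hb⟩ := ply n k r L
  obtain ⟨h1, h2, h3, h4⟩ := ide n k hn
  -- the form as a sum over the levels
  have hform : ∀ f : KS n k → ℝ,
      ∑ R ∈ powersetCard r (univ : Finset (Fin n)), wf L f R ^ 2 =
        ∑ l ∈ Finset.range (k + 1), b.eval (y n l) * lw n k l f := by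
    intro f
    rw [hb f, h1 b f, ip_sum']
    refine Finset.sum_congr rfl fun l _ => ?_
    rw [H33.ip_smul]
    rfl
  -- the projections
  have hEE : ∀ l ≤ k, ∀ l' ≤ k, ∀ f : KS n k → ℝ, lw n k l' (E n k l f) =
      if l' = l then lw n k l f else 0 := by
    intro l hl l' hl' f
    have h5 : E n k l' (E n k l f) = (eb n k l').eval (y n l) • E n k l f :=
      h2 (eb n k l') l hl f
    have hinj : Set.InjOn (y n) ((Finset.range (k + 1) : Finset ℕ) : Set ℕ) :=
      H94.y_injOn hn _ (fun i hi => by
        have := Finset.mem_range.mp hi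
        omega)
    unfold lw
    rw [h5, H33.ip_smul]
    split_ifs with h
    · subst h
      have h6 : (eb n k l').eval (y n l') = 1 := by
        unfold eb
        exact Lagrange.eval_basis_self hinj (Finset.mem_range.mpr (by omega))
      rw [h6, one_mul]
      exact (h3 l' hl f).symm
    · have h6 : (eb n k l').eval (y n l) = 0 := by
        unfold eb
        exact Lagrange.eval_basis_of_ne h (Finset.mem_range.mpr (by omega))
      rw [h6, zero_mul]
  have hone : ∀ l ≤ k, ∀ f : KS n k → ℝ,
      ∑ R ∈ powersetCard r (univ : Finset (Fin n)), wf L (E n k l f) R ^ 2 =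
        b.eval (y n l) * lw n k l f := by
    intro l hl f
    rw [hform, Finset.sum_eq_single l]
    · rw [hEE l hl l hl f, if_pos rfl]
    · intro l' hl' hne
      have := Finset.mem_range.mp hl'
      rw [hEE l hl l' (by omega) f, if_neg hne, mul_zero]
    · intro h
      exact absurd (Finset.mem_range.mpr (by omega)) h
  have hnn : ∀ l ≤ k, ∀ f : KS n k → ℝ, 0 ≤ b.eval (y n l) * lw n k l f := by
    intro l hl f
    rw [← hone l hl f]
    exact Finset.sum_nonneg fun R _ => sq_nonneg _
  have hhigh : ∀ l, r < l → l ≤ k → ∀ f : KS n k → ℝ, b.eval (y n l) * lw n k l f = 0 := by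
    intro l hl hlk f
    rw [← hone l hlk f]
    apply Finset.sum_eq_zero
    intro R hR
    have hRc := (Finset.mem_powersetCard.mp hR).2
    obtain ⟨a, ha⟩ := wdg L r
    rw [ha n k _ R hRc]
    have h5 : ∑ j ∈ Finset.range (r + 1), a j * ∑ J ∈ powersetCard j R, dg (E n k l f) J = 0 := by
      apply Finset.sum_eq_zero
      intro j hj
      have hj' := Finset.mem_range.mp hj
      rw [Finset.sum_eq_zero, mul_zero]
      intro J hJ
      have hJc := (Finset.mem_powersetCard.mp hJ).2
      exact dge n k l hn hlk f J (by omega)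
    rw [h5]
    norm_num
  rw [hform f, hform g]
  refine Finset.sum_le_sum fun l hl => ?_
  have hlk : l ≤ k := by
    have := Finset.mem_range.mp hl
    omega
  by_cases hlr : l ≤ r
  · have hf0 : 0 ≤ lw n k l f := by
      rw [h3 l hlk f]
      exact ip_self_nonneg _
    rcases eq_or_lt_of_le hf0 with h | h
    · rw [← h, mul_zero]
      exact hnn l hlk g
    · have hb0 : 0 ≤ b.eval (y n l) := by
        have h5 := hnn l hlk f
        exact nonneg_of_mul_nonneg_left h5 h
      exact mul_le_mul_of_nonneg_left (hfg l hlr) hb0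
  · rw [hhigh l (by omega) hlk f, hhigh l (by omega) hlk g]

end Pool.Agent.DPL.H88
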