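import Pool.Agent.Helper88_DPL.Thc

/-!
Squad DPL, row ODA: the odd level `j = t + 1`.
-/

set_option autoImplicit false

namespace Pool.Agent.DPL.H88

open Finset Polynomial Pool.Agent.DPS

theorem poly_ineq {a t x : ℝ} (ha : 2 ≤ a) (ht : 1 ≤ t) (hx : 0 ≤ x) :
    a * (t * (t * a + a + 2 + x)) ≤ 2 * (t * a + 1 + x) * (t * a + a + 1 - t + x) := by
  obtain ⟨b, rfl⟩ : ∃ b, a = b + 2 := ⟨a - 2, by ring⟩
  obtain ⟨s, rfl⟩ : ∃ s, t = s + 1 := ⟨t - 1, by ring⟩
  have hb : 0 ≤ b := by linarith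
  have hs : 0 ≤ s := by linarith
  rw [← sub_nonneg]
  ring_nf
  positivity

theorem prod_id (t : ℕ) : ∏ m ∈ Finset.Icc 1 t, (m : ℝ) = (t.factorial : ℝ) := by
  induction t with
  | zero => simp
  | succ t ih =>
    rw [Finset.prod_Icc_succ_top (by omega), ih, Nat.factorial_succ]
    push_cast
    ring

theorem oda (csc : CSCStmt) (thc' : THCStmt) (kra : KRAStmt) : ODAStmt := by
  intro n k t l hl htk hn
  have hl' := Finset.mem_Icc.1 hl
  have ht1 : 1 ≤ t := by omega
  have h2k : 2 * k ≤ n := H33.two_k_le ht1 (by omega) hn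
  have hratio := H33.cc_ratio (t := t) h2k (by omega) (j := t + 1) (by omega) (by omega) hl
  have hc := csc n k t (by omega) h2k
  have hth := thc' n k t (by omega) h2k
  have hkr := kra n k (t + 1) (by omega) h2k
  -- the product
  have hP1 : ∏ m ∈ Finset.Icc 1 t, (y n (t + 1) - y n m) =
      (t.factorial : ℝ) * ((n - t - 1).descFactorial t : ℝ) := by
    have h1 : ∀ m ∈ Finset.Icc 1 t, y n (t + 1) - y n m =
        ((t : ℝ) + 1 - m) * (((n - t - 1 : ℕ) : ℝ) + 1 - m) := by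
      intro m _
      rw [H94.y_sub, Nat.cast_sub (by omega), Nat.cast_sub (by omega)]
      push_cast
      ring
    rw [Finset.prod_congr rfl h1, Finset.prod_mul_distrib, prod_desc t t (le_refl _),
      prod_desc (n - t - 1) t (by omega), Nat.descFactorial_self]
  have hP2 : ∏ m ∈ Finset.Icc 1 t, y n m = (t.factorial : ℝ) * (n.descFactorial t : ℝ) := by
    have h1 : ∀ m ∈ Finset.Icc 1 t, y n m = (m : ℝ) * ((n : ℝ) + 1 - m) := fun m _ => rfl
    rw [Finset.prod_congr rfl h1, Finset.prod_mul_distrib, prod_desc n t (by omega)]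
    rw [prod_id]
  have p3 : (t.factorial : ℝ) ≠ 0 := Nat.cast_ne_zero.2 (Nat.factorial_ne_zero _)
  have pos_desc : ∀ a b : ℕ, b ≤ a → (0 : ℝ) < (a.descFactorial b : ℝ) := by
    intro a b h
    have h1 : a.descFactorial b ≠ 0 := fun h2 => by
      rw [Nat.descFactorial_eq_zero_iff_lt] at h2
      omega
    exact_mod_cast Nat.pos_of_ne_zero h1
  have q1 := pos_desc n t (by omega)
  have q2 := pos_desc k t (by omega)
  have q3 := pos_desc (n - k - 1) t (by omega)
  have q4 := pos_desc (n - t - 1) t (by omega)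
  have hPi : ∏ m ∈ Finset.Icc 1 t, ((y n (t + 1) - y n m) / y n m) =
      ((n - t - 1).descFactorial t : ℝ) / (n.descFactorial t : ℝ) := by
    rw [Finset.prod_div_distrib, hP1, hP2]
    field_simp
  have hkt : (0 : ℝ) < (k : ℝ) - t := by
    have : (t : ℝ) + 2 ≤ k := by exact_mod_cast htk
    linarith
  have hnk : (0 : ℝ) < (n : ℝ) - k := by
    have h1 : 2 * (k : ℝ) ≤ n := by exact_mod_cast h2k
    have h2 : (0 : ℝ) < k := by
      have : 0 < k := by omega
      exact_mod_cast this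
    linarith
  have e4 : (k.descFactorial (t + 1) : ℝ) = ((k : ℝ) - t) * (k.descFactorial t : ℝ) := by
    rw [Nat.descFactorial_succ, Nat.cast_mul, Nat.cast_sub (by omega)]
  have e5 : ((n - k).descFactorial (t + 1) : ℝ) =
      ((n : ℝ) - k) * ((n - k - 1).descFactorial t : ℝ) := by
    obtain ⟨a, ha⟩ : ∃ a, n - k = a + 1 := ⟨n - k - 1, by omega⟩
    rw [ha, Nat.succ_descFactorial_succ]
    have h1 : (n : ℝ) - k = a + 1 := by
      rw [← Nat.cast_sub (by omega), ha]
      push_cast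
      rfl
    rw [h1]
    push_cast
    simp
  rw [e4, e5] at hkr
  obtain ⟨W, hW⟩ : ∃ W, W = |kap n k (t + 1) / kap n k 0| := ⟨_, rfl⟩
  rw [← hW] at hkr hratio
  have hcs : cs n k t = (n.descFactorial t : ℝ) / (k.descFactorial t : ℝ) := by
    rw [eq_div_iff q2.ne']
    exact hc
  have hT : 1 + th n k t (t + 1) =
      ((n - t - 1).descFactorial t : ℝ) / ((n - k - 1).descFactorial t : ℝ) := by
    rw [eq_div_iff q3.ne']
    exact hth
  have hW' : W = ((k : ℝ) - t) * (k.descFactorial t : ℝ) /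
      (((n : ℝ) - k) * ((n - k - 1).descFactorial t : ℝ)) := by
    rw [eq_div_iff (mul_pos hnk q3).ne']
    exact hkr
  have hyl : 0 < y n l := by
    have := H94.y_lt h2k (i := 0) (j := l) (by omega) (by omega)
    have h0 : y n 0 = 0 := H33.y_zero n
    rwa [h0] at this
  have hyt : y n l ≤ y n t := by
    rcases eq_or_lt_of_le hl'.2 with h | h
    · rw [h]
    · exact (H94.y_lt h2k h (by omega)).le
  have hyd : 0 < y n (t + 1) - y n l := sub_pos.2 (H94.y_lt h2k (by omega) (by omega))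
  have hkey : (((k : ℝ) - t) / ((n : ℝ) - k)) * (y n l / (y n (t + 1) - y n l)) ≤ 2 := by
    rw [div_mul_div_comm, div_le_iff₀ (mul_pos hnk hyd)]
    -- it is enough for `l = t`
    have h1 : ((k : ℝ) - t) * y n t ≤ 2 * ((n : ℝ) - k) * (y n (t + 1) - y n t) := by
      have h2 : y n (t + 1) - y n t = (n : ℝ) - 2 * t := by
        rw [H94.y_sub]
        push_cast
        ring
      have h3 : y n t = (t : ℝ) * ((n : ℝ) + 1 - t) := rfl
      rw [h2, h3]
      have hnr : ((t : ℝ) + 1) * ((k : ℝ) - t + 1) ≤ n := by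
        have h4 : ((t : ℝ) + 1) * (((k - t : ℕ) : ℝ) + 1) ≤ n := by exact_mod_cast hn
        rwa [Nat.cast_sub (by omega)] at h4
      have ha2 : (2 : ℝ) ≤ (k : ℝ) - t := by
        have : (t : ℝ) + 2 ≤ k := by exact_mod_cast htk
        linarith
      have ht1r : (1 : ℝ) ≤ t := by exact_mod_cast ht1
      have h5 := poly_ineq (a := (k : ℝ) - t) (t := (t : ℝ))
        (x := (n : ℝ) - ((t : ℝ) + 1) * ((k : ℝ) - t + 1)) ha2 ht1r (by linarith)
      have e6 : (t : ℝ) * ((k : ℝ) - t) + ((k : ℝ) - t) + 2 +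
          ((n : ℝ) - ((t : ℝ) + 1) * ((k : ℝ) - t + 1)) = (n : ℝ) + 1 - t := by ring
      have e7 : (t : ℝ) * ((k : ℝ) - t) + 1 +
          ((n : ℝ) - ((t : ℝ) + 1) * ((k : ℝ) - t + 1)) = (n : ℝ) - k := by ring
      have e8 : (t : ℝ) * ((k : ℝ) - t) + ((k : ℝ) - t) + 1 - t +
          ((n : ℝ) - ((t : ℝ) + 1) * ((k : ℝ) - t + 1)) = (n : ℝ) - 2 * t := by ring
      rw [e6, e7, e8] at h5
      exact h5
    have h6 : (((k : ℝ) - t) + 2 * ((n : ℝ) - k)) * y n l ≤
        (((k : ℝ) - t) + 2 * ((n : ℝ) - k)) * y n t :=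
      mul_le_mul_of_nonneg_left hyt (by linarith)
    nlinarith
  have hc0 : 0 ≤ cc n k t 0 l := H33.cc_nonneg _ _ _ _ _
  have hT0 : 0 ≤ 1 + th n k t (t + 1) := by
    rw [hT]
    positivity
  calc cc n k t (t + 1) l * cs n k t
      = (cc n k t 0 l * (1 + th n k t (t + 1))) *
        ((((k : ℝ) - t) / ((n : ℝ) - k)) * (y n l / (y n (t + 1) - y n l))) := by
        rw [hratio, hPi, hW', hcs, hT]
        field_simp
    _ ≤ (cc n k t 0 l * (1 + th n k t (t + 1))) * 2 :=
        mul_le_mul_of_nonneg_left hkey (mul_nonneg hc0 hT0)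
    _ = 2 * cc n k t 0 l * (1 + th n k t (t + 1)) := by ring

end Pool.Agent.DPL.H88
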