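import Pool.Agent.DPL.StmtsA
import Pool.Agent.Helper94_DPS.WIT
import Pool.Agent.Helper94_DPS.DDC
import Pool.Agent.Helper65_DPS.DDR
import Pool.Agent.Helper33_DPS.Pos
import Pool.Agent.Helper88_DPS.Dq

/-!
Squad DPL, row THC: closed form of `1 + θ_{t+1}`.
-/

set_option autoImplicit false

namespace Pool.Agent.DPL.H88

open Finset Polynomial Pool.Agent.DPS

theorem choose_desc {N k j : ℕ} (hj : j ≤ k) (hk : k ≤ N) :
    (N - j).choose (k - j) * N.descFactorial j = N.choose k * k.descFactorial j := by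
  have h1 := Nat.choose_mul_factorial_mul_factorial (n := N - j) (k := k - j) (by omega)
  have h2 := Nat.choose_mul_factorial_mul_factorial (n := N) (k := k) hk
  have h3 := Nat.factorial_mul_descFactorial (n := N) (k := j) (by omega)
  have h4 := Nat.factorial_mul_descFactorial (n := k) (k := j) hj
  have e : N - j - (k - j) = N - k := by omega
  rw [e] at h1
  have p1 : 0 < (k - j).factorial := Nat.factorial_pos _
  have p2 : 0 < (N - k).factorial := Nat.factorial_pos _
  apply Nat.eq_of_mul_eq_mul_right (Nat.mul_pos p1 p2)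
  calc (N - j).choose (k - j) * N.descFactorial j * ((k - j).factorial * (N - k).factorial)
      = ((N - j).choose (k - j) * (k - j).factorial * (N - k).factorial) * N.descFactorial j := by
        ring
    _ = N.factorial := by rw [h1, h3]
    _ = N.choose k * ((k - j).factorial * k.descFactorial j) * (N - k).factorial := by
        rw [h4, h2]
    _ = N.choose k * k.descFactorial j * ((k - j).factorial * (N - k).factorial) := by ring

theorem prod_desc (a : ℕ) : ∀ t : ℕ, t ≤ a →
    ∏ m ∈ Finset.Icc 1 t, ((a : ℝ) + 1 - m) = (a.descFactorial t : ℝ) := by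
  intro t
  induction t with
  | zero => intro _; simp
  | succ t ih =>
    intro h
    rw [Finset.prod_Icc_succ_top (by omega), ih (by omega), Nat.descFactorial_succ, Nat.cast_mul,
      Nat.cast_sub (by omega)]
    push_cast
    ring

theorem thc : THCStmt := by
  intro n k t htk hn
  have hddi := Pool.Agent.DPS.H88.ddi (y n) (Finset.Icc 1 t) (gk n k) (t + 1)
    (by rw [Finset.mem_Icc]; omega) (H94.y_injOn hn _ (fun i hi => by
      simp only [Finset.mem_insert, Finset.mem_Icc] at hi
      omega))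
  have hk1 : kap n k (t + 1) ≠ 0 := H33.kap_ne hn htk
  have hk0 : kap n k 0 ≠ 0 := H33.kap_ne hn (Nat.zero_le _)
  -- the left side
  have hL : (kap n k (t + 1) / kap n k 0) * (gk n k (t + 1) - ∑ l ∈ Finset.Icc 1 t, gk n k l *
      ∏ m ∈ (Finset.Icc 1 t).erase l, ((y n (t + 1) - y n m) / (y n l - y n m))) =
      1 + th n k t (t + 1) := by
    have h1 : (kap n k (t + 1) / kap n k 0) * gk n k (t + 1) = 1 := by
      have := (H94.kap_gk hn htk).2
      rw [← this]
      have hg : gk n k (t + 1) ≠ 0 := by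
        intro h0
        rw [h0, zero_mul] at this
        exact hk0 this.symm
      field_simp
    rw [mul_sub, h1, Finset.mul_sum]
    unfold th
    rw [sub_eq_add_neg, ← Finset.sum_neg_distrib]
    congr 1
    refine Finset.sum_congr rfl fun l hl => ?_
    have hl' := Finset.mem_Icc.1 hl
    have h2 := H33.EE_pos (t := t) hn (by omega) (j := t + 1) (by omega) htk hl
    have h3 : (-1 : ℝ) ^ (t + 1 + t) = -1 := by
      have : t + 1 + t = 2 * t + 1 := by ring
      rw [this, pow_succ, pow_mul]
      norm_num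
    rw [h3] at h2
    have h4 : cc n k t (t + 1) l = - H33.EE n k t (t + 1) l := by rw [h2]; ring
    rw [h4]
    unfold H33.EE
    have hkl := H94.kap_gk hn (show l ≤ k by omega)
    have h5 : gk n k l = kap n k 0 / kap n k l := by
      rw [eq_div_iff hkl.1]
      exact hkl.2
    rw [h5]
    have h6 := hkl.1
    congr 1
    field_simp
  -- the divided difference
  have e2 : insert (t + 1) (Finset.Icc 1 t) = (Finset.range (t + 1)).image (· + 1) := by
    ext i
    simp only [Finset.mem_range, Finset.mem_insert, Finset.mem_Icc, Finset.mem_image]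
    constructor
    · intro h
      exact ⟨i - 1, by omega, by omega⟩
    · rintro ⟨j, hj, rfl⟩
      omega
  have hD : dd (y n) (insert (t + 1) (Finset.Icc 1 t)) (gk n k) = -(((n : ℝ) - k) / k) *
      ((-1 : ℝ) ^ t / ((t.factorial : ℝ) * ((k - 1).descFactorial t : ℝ))) := by
    rw [e2, H94.dd_shift (by omega) hn, H94.ddc H65.ddr t (n - 2) (k - 1) (by omega) (by omega)]
  -- the product
  have hP : ∏ m ∈ Finset.Icc 1 t, (y n (t + 1) - y n m) =
      (t.factorial : ℝ) * ((n - t - 1).descFactorial t : ℝ) := by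
    have h1 : ∀ m ∈ Finset.Icc 1 t, y n (t + 1) - y n m =
        ((t : ℝ) + 1 - m) * (((n - t - 1 : ℕ) : ℝ) + 1 - m) := by
      intro m _
      rw [H94.y_sub, Nat.cast_sub (by omega), Nat.cast_sub (by omega)]
      push_cast
      ring
    rw [Finset.prod_congr rfl h1, Finset.prod_mul_distrib, prod_desc t t (le_refl _),
      prod_desc (n - t - 1) t (by omega), Nat.descFactorial_self]
  -- the ratio of the kappas
  have hK : kap n k (t + 1) / kap n k 0 * ((n - k).descFactorial (t + 1) : ℝ) =
      (-1 : ℝ) ^ (t + 1) * (k.descFactorial (t + 1) : ℝ) := by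
    have h1 := choose_desc (N := n - k) (k := k) (j := t + 1) htk (by omega)
    have h2 : ((n - k - (t + 1)).choose (k - (t + 1)) : ℝ) * ((n - k).descFactorial (t + 1) : ℝ) =
        ((n - k).choose k : ℝ) * (k.descFactorial (t + 1) : ℝ) := by exact_mod_cast h1
    have h3 : kap n k 0 = ((n - k).choose k : ℝ) := by
      unfold kap
      rw [pow_zero, one_mul, Nat.sub_zero, Nat.sub_zero]
    rw [div_mul_eq_mul_div, div_eq_iff hk0, h3]
    unfold kap
    linear_combination (-1 : ℝ) ^ (t + 1) * h2
  have e4 : (k.descFactorial (t + 1) : ℝ) = (k : ℝ) * ((k - 1).descFactorial t : ℝ) := by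
    obtain ⟨a, rfl⟩ : ∃ a, k = a + 1 := ⟨k - 1, by omega⟩
    rw [Nat.succ_descFactorial_succ]
    push_cast
    simp
  have e5 : ((n - k).descFactorial (t + 1) : ℝ) =
      ((n : ℝ) - k) * ((n - k - 1).descFactorial t : ℝ) := by
    obtain ⟨a, ha⟩ : ∃ a, n - k = a + 1 := ⟨n - k - 1, by omega⟩
    rw [ha, Nat.succ_descFactorial_succ]
    have h1 : (n : ℝ) - k = a + 1 := by
      rw [← Nat.cast_sub (by omega), ha]
      push_cast
      rfl
    rw [h1]
    push_cast
    simp
  have p1 : ((k - 1).descFactorial t : ℝ) ≠ 0 :=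
    Nat.cast_ne_zero.2 (fun h => by
      rw [Nat.descFactorial_eq_zero_iff_lt] at h
      omega)
  have p2 : ((n - k - 1).descFactorial t : ℝ) ≠ 0 :=
    Nat.cast_ne_zero.2 (fun h => by
      rw [Nat.descFactorial_eq_zero_iff_lt] at h
      omega)
  have p3 : (t.factorial : ℝ) ≠ 0 := Nat.cast_ne_zero.2 (Nat.factorial_ne_zero _)
  have p4 : (k : ℝ) ≠ 0 := Nat.cast_ne_zero.2 (by omega)
  have p5 : (n : ℝ) - k ≠ 0 := by
    rw [← Nat.cast_sub (by omega)]
    exact Nat.cast_ne_zero.2 (by omega)
  rw [e4, e5] at hK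
  have hs : (-1 : ℝ) ^ (t + 1) * (-1 : ℝ) ^ t = -1 := by
    rw [← pow_add]
    have : t + 1 + t = 2 * t + 1 := by ring
    rw [this, pow_succ, pow_mul]
    norm_num
  rw [← hL, hddi, hD, hP]
  have hK' : kap n k (t + 1) / kap n k 0 * ((n - k - 1).descFactorial t : ℝ) =
      (-1 : ℝ) ^ (t + 1) * ((k : ℝ) * ((k - 1).descFactorial t : ℝ)) / ((n : ℝ) - k) := by
    rw [eq_div_iff p5, ← hK]
    ring
  calc kap n k (t + 1) / kap n k 0 * ((t.factorial : ℝ) * ((n - t - 1).descFactorial t : ℝ) *
        (-(((n : ℝ) - k) / k) * ((-1 : ℝ) ^ t / ((t.factorial : ℝ) *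
          ((k - 1).descFactorial t : ℝ))))) * ((n - k - 1).descFactorial t : ℝ)
      = (kap n k (t + 1) / kap n k 0 * ((n - k - 1).descFactorial t : ℝ)) *
        (t.factorial : ℝ) * ((n - t - 1).descFactorial t : ℝ) *
        (-(((n : ℝ) - k) / k) * ((-1 : ℝ) ^ t / ((t.factorial : ℝ) *
          ((k - 1).descFactorial t : ℝ)))) := by ring
    _ = -((-1 : ℝ) ^ (t + 1) * (-1 : ℝ) ^ t) * ((n - t - 1).descFactorial t : ℝ) := by
        rw [hK']
        field_simp
    _ = ((n - t - 1).descFactorial t : ℝ) := by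
        rw [hs]
        ring

end Pool.Agent.DPL.H88
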