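import Pool.Agent.DPL.StmtsA
import Pool.Agent.Helper59_DPS.All
import Pool.Agent.Helper33_DPS.Pos
import Pool.Agent.Helper88_DPS.R1v

/-!
Squad DPL, row WFI: the inequality for `wf`.
-/

set_option autoImplicit false

namespace Pool.Agent.DPL.H88

open Finset Polynomial Pool.Agent.DPS

theorem wfi (lev : LEVStmt) (lze : LZEStmt) (frm : FRMStmt) : WFIStmt := by
  intro n k t r ht hrt htk hn L A hA T hT
  have h2k : 2 * k ≤ n := H33.two_k_le ht (by omega) hn
  refine frm n k r h2k (by omega) L (ind A) (star k T) fun l hl => ?_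
  rcases Nat.eq_zero_or_pos l with h0 | h0
  · subst h0
    have h1 := lze n k h2k (ind A)
    have h2 := lze n k h2k (star k T)
    have h3 : (0 : ℝ) < (n.choose k : ℝ) := by
      exact_mod_cast Nat.choose_pos (by omega : k ≤ n)
    have h4 : ∑ F, ind A F = (A.card : ℝ) := Pool.Agent.DPS.H88.sum_ind A
    have h5 : ∑ F, star k T F = ip (star k T) (star k T) := by
      unfold ip
      refine Finset.sum_congr rfl fun F _ => ?_
      unfold Pool.Agent.DPS.star
      split_ifs <;> simp
    have h6 := (H59.p2a' n k t 0 ht (by omega) (by omega) hn A hA T hT).1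
    rw [h4] at h1
    rw [h5] at h2
    have h7 : (A.card : ℝ) ^ 2 ≤ (ip (star k T) (star k T)) ^ 2 :=
      pow_le_pow_left₀ (Nat.cast_nonneg _) h6 2
    rw [← h1, ← h2] at h7
    exact le_of_mul_le_mul_right h7 h3
  · exact lev n k t l h0 (by omega) htk hn A hA T hT

end Pool.Agent.DPL.H88
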